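import Pool.Agent.Helper40.TWM.Stmts
import Pool.Agent.Helper98.TW.Basic

/-!
Row MCL of the sheet TWM: equivariant matrices for irreducible cocycles are scalar.
-/

set_option linter.unusedSectionVars false

open MeasureTheory Filter Topology Finset
open scoped ComplexConjugate Matrix ComplexOrder

namespace Pool.Agent.Helper95.TWM

open Pool.Agent.Helper98.TW (SA AM UF BF Sys IA Inc C0 CM ON Rk Mi Fr Wi TI Tow MR NE SS JN
  am_const am_mul am_add am_sub am_conj am_congr am_finset_sum)
open Pool.Agent.Helper40.TWM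

theorem st_MCL (hMEN : ST_MEN) (hTWS : Pool.Agent.Helper98.TW.ST_TWS) : ST_MCL := by
  intro Ω _ μ _ S S' C p q R₀ m Y ρ hS hE hQ hq hR₀ hm hY hYb hρ hρu hIr hYR
  by_cases hYC : ∀ a b, AM μ C fun x => Y x a b
  · exact hIr Y hYC hYR
  exfalso
  obtain ⟨ψ, B, hψ, hψi, hψ0, hB, -, hB0, hBR⟩ := hMEN Ω μ S S' C p q R₀ m Y ρ ρ hS hE hQ hm hY hYb
    hρ hρ hρu hρu hYR hYC
  have hBc : ∀ a b, AM μ C fun x => (B x).conjTranspose a b := fun a b => am_conj (hB b a)
  -- `B^* B` is scalar
  obtain ⟨l, hl⟩ := hIr (fun x => (B x).conjTranspose * B x) (fun a b => by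
      refine am_congr (am_finset_sum (μ := μ) (𝒜 := C) Finset.univ
        (F := fun k x => (B x).conjTranspose a k * B x k b)
        fun k _ => am_mul (hBc a k) (hB k b)) (Eventually.of_forall fun x => ?_)
      simp [Matrix.mul_apply]) (by
    filter_upwards [hBR, hρu, hψ.2, hS.mp.quasiMeasurePreserving.ae hψ.2] with x h1 h2 h3 h4
    have h5 : (ρ x).conjTranspose * ρ x = 1 := by
      rw [← Matrix.star_eq_conjTranspose]; exact Matrix.mem_unitaryGroup_iff'.1 h2
    rw [h1, Matrix.conjTranspose_smul, Matrix.smul_mul, Matrix.mul_smul, smul_smul,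
      Matrix.conjTranspose_mul, Matrix.conjTranspose_mul, Matrix.conjTranspose_conjTranspose]
    have h6 : star (conj (ψ (S^[p] x) * conj (ψ x))) * conj (ψ (S^[p] x) * conj (ψ x)) = 1 := by
      rw [Complex.star_def, Complex.conj_mul', RCLike.norm_conj, norm_mul, RCLike.norm_conj, h3, h4]
      simp
    rw [h6, one_smul]
    calc ρ x * ((B x).conjTranspose * (ρ x).conjTranspose) * (ρ x * B x * (ρ x).conjTranspose) =
        ρ x * ((B x).conjTranspose * ((ρ x).conjTranspose * ρ x) * B x) * (ρ x).conjTranspose := by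
          noncomm_ring
      _ = _ := by rw [h5, Matrix.mul_one])
  -- `m ≥ 1`
  have hm1 : 1 ≤ m := by
    by_contra hc
    have : m = 0 := by omega
    subst this
    exact hB0 (Eventually.of_forall fun x => Subsingleton.elim _ _)
  -- `l` is real and positive
  have hlr : ∀ᵐ x ∂μ, (l : ℂ) = ((∑ k, ‖B x k ⟨0, hm1⟩‖ ^ 2 : ℝ) : ℂ) := by
    filter_upwards [hl] with x hx
    have h1 := congrFun (congrFun hx ⟨0, hm1⟩) ⟨0, hm1⟩
    rw [Matrix.mul_apply, Matrix.smul_apply, Matrix.one_apply_eq, smul_eq_mul, mul_one] at h1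
    rw [← h1]
    push_cast
    refine Finset.sum_congr rfl fun k _ => ?_
    rw [Matrix.conjTranspose_apply, Complex.star_def, Complex.conj_mul']
  obtain ⟨x₀, hx₀⟩ := hlr.exists
  set s : ℝ := ∑ k, ‖B x₀ k ⟨0, hm1⟩‖ ^ 2 with hs
  have hs0 : 0 ≤ s := Finset.sum_nonneg fun _ _ => sq_nonneg _
  have hsp : 0 < s := by
    rcases hs0.lt_or_eq with h | h
    · exact h
    · exfalso
      apply hB0
      rw [← h] at hx₀
      filter_upwards [hl] with x hx
      rw [hx₀] at hx
      have h2 : (B x).conjTranspose * B x = 0 := by rw [hx]; simp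
      exact Matrix.conjTranspose_mul_self_eq_zero.1 h2
  obtain ⟨W, hW⟩ : ∃ W : Ω → Matrix (Fin m) (Fin m) ℂ, ∀ x, W x =
      (((Real.sqrt s)⁻¹ : ℝ) : ℂ) • B x := ⟨_, fun _ => rfl⟩
  have hr0 : Real.sqrt s ≠ 0 := (Real.sqrt_pos.2 hsp).ne'
  obtain ⟨M, hM1, hM2, hM3⟩ := hTWS Ω μ S^[p] S'^[p] C m ρ W (fun x => conj (ψ x)) hS hE (by
      have h0 := hQ.ia
      exact ⟨h0.1, fun f hf => ⟨by
        have : ∀ n : ℕ, AM μ C fun x => f (S^[n] x) := by
          intro n
          induction n with
          | zero => exact hf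
          | succ n ih =>
            have := (h0.2 _ ih).1
            simpa only [Function.iterate_succ_apply] using this
        exact this p, by
        have : ∀ n : ℕ, AM μ C fun x => f (S'^[n] x) := by
          intro n
          induction n with
          | zero => exact hf
          | succ n ih =>
            have := (h0.2 _ ih).2
            simpa only [Function.iterate_succ_apply] using this
        exact this p⟩⟩) hm1 hρ hρu (fun a b => by
      refine am_congr (am_mul (am_const (μ := μ) (𝒜 := C) (((Real.sqrt s)⁻¹ : ℝ) : ℂ)) (hB a b))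
        (Eventually.of_forall fun x => ?_)
      show _ = W x a b
      rw [hW]; rfl) (by
      filter_upwards [hl] with x hx
      rw [Matrix.mem_unitaryGroup_iff', Matrix.star_eq_conjTranspose, hW,
        Matrix.conjTranspose_smul, Matrix.smul_mul, Matrix.mul_smul, smul_smul, hx, hx₀, smul_smul]
      have : star ((((Real.sqrt s)⁻¹ : ℝ) : ℂ)) * (((Real.sqrt s)⁻¹ : ℝ) : ℂ) * (s : ℂ) = 1 := by
        rw [Complex.star_def, Complex.conj_ofReal, ← Complex.ofReal_mul, ← Complex.ofReal_mul]
        have h1 : (Real.sqrt s)⁻¹ * (Real.sqrt s)⁻¹ * s = 1 := by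
          have h2 : Real.sqrt s * Real.sqrt s = s := Real.mul_self_sqrt hs0
          calc (Real.sqrt s)⁻¹ * (Real.sqrt s)⁻¹ * s =
              (Real.sqrt s)⁻¹ * (Real.sqrt s)⁻¹ * (Real.sqrt s * Real.sqrt s) := by rw [h2]
            _ = 1 := by field_simp
        rw [h1]; simp
      rw [this, one_smul]) hψ.conj hψi.conj (by
      filter_upwards [hBR] with x hx
      rw [hW, hW, hx, Matrix.mul_smul, Matrix.smul_mul, smul_smul, smul_smul]
      congr 1
      rw [map_mul, Complex.conj_conj]
      ring)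
  have hcop : Nat.Coprime M q := by
    refine Nat.Coprime.symm ((Nat.Prime.coprime_iff_not_dvd hq).2 fun hd => ?_)
    have h1 := Nat.le_of_dvd (by omega) hd
    have h2 : m ^ 2 ≤ R₀ ^ 2 := Nat.pow_le_pow_left hm 2
    omega
  have hψC : AM μ C (fun x => conj (ψ x)) := hQ.c _ hψ.conj hψi.conj M hM1 hcop hM3
  have hψC' : AM μ C ψ := by
    refine am_congr (am_conj hψC) (Eventually.of_forall fun x => ?_)
    simp
  have hψI : Integrable ψ μ := by
    refine Integrable.mono' (integrable_const (1 : ℝ)) hψ.1.aestronglyMeasurable ?_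
    filter_upwards [hψ.2] with x hx
    rw [hx]
  have h1 : μ[ψ|C] =ᵐ[μ] ψ := condExp_of_aestronglyMeasurable' hQ.ia.1 hψC' hψI
  obtain ⟨x, h2, h3, h4⟩ := (h1.and (hψ0.and hψ.2)).exists
  rw [h2] at h3
  rw [h3] at h4
  simp at h4

end Pool.Agent.Helper95.TWM
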