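import Pool.Agent.Helper40.TWM.Stmts
import Pool.Agent.Helper98.TW.Basic

/-!
Row MIR of the sheet TWM: frames of minimal modules are irreducible.
-/

set_option linter.unusedSectionVars false

open MeasureTheory Filter Topology Finset
open scoped ComplexConjugate Matrix ComplexOrder

namespace Pool.Agent.Helper95.TWM

open Pool.Agent.Helper98.TW (SA AM UF BF Sys IA Inc C0 CM ON Rk Mi Fr Wi TI Tow MR NE SS JN
  am_const am_mul am_add am_sub am_conj am_congr am_finset_sum)
open Pool.Agent.Helper40.TWM

theorem st_MIR (hSCL : Pool.Agent.Helper98.TW.ST_SCL) : ST_MIR := by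
  intro Ω _ μ _ V _ _ _ R R' θ C M m e ρ hS hE hC hMi hF B hB hBR
  have hBc : ∀ a b, AM μ C fun x => (B x).conjTranspose a b := fun a b => am_conj (hB b a)
  have hBRc : ∀ᵐ x ∂μ, (B (R x)).conjTranspose = ρ x * (B x).conjTranspose *
      (ρ x).conjTranspose := by
    filter_upwards [hBR] with x hx
    rw [hx, Matrix.conjTranspose_mul, Matrix.conjTranspose_mul, Matrix.conjTranspose_conjTranspose,
      Matrix.mul_assoc]
  obtain ⟨c1, h1⟩ := hSCL Ω μ V R R' θ C M m e ρ hS hE hC hMi hF
    (fun x => (1 / 2 : ℂ) • (B x + (B x).conjTranspose))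
    (fun a b => am_mul (am_const _) (am_add (hB a b) (hBc a b)))
    (Eventually.of_forall fun x => by
      show ((1 / 2 : ℂ) • (B x + (B x).conjTranspose)).conjTranspose = _
      rw [Matrix.conjTranspose_smul, Matrix.conjTranspose_add, Matrix.conjTranspose_conjTranspose,
        add_comm]
      congr 1
      simp) (by
      filter_upwards [hBR, hBRc] with x h1 h2
      rw [h2, h1, ← Matrix.add_mul, ← Matrix.mul_add, Matrix.mul_smul, Matrix.smul_mul])
  obtain ⟨c2, h2⟩ := hSCL Ω μ V R R' θ C M m e ρ hS hE hC hMi hF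
    (fun x => (Complex.I / 2 : ℂ) • (B x - (B x).conjTranspose))
    (fun a b => am_mul (am_const _) (am_sub (hB a b) (hBc a b)))
    (Eventually.of_forall fun x => by
      show ((Complex.I / 2 : ℂ) • (B x - (B x).conjTranspose)).conjTranspose = _
      rw [Matrix.conjTranspose_smul, Matrix.conjTranspose_sub, Matrix.conjTranspose_conjTranspose]
      have : star (Complex.I / 2) = -(Complex.I / 2) := by
        rw [Complex.star_def, map_div₀, Complex.conj_I, map_ofNat]
        ring
      rw [this, neg_smul, ← smul_neg, neg_sub]) (by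
      filter_upwards [hBR, hBRc] with x h1 h2
      rw [h2, h1, ← Matrix.sub_mul, ← Matrix.mul_sub, Matrix.mul_smul, Matrix.smul_mul])
  refine ⟨(c1 : ℂ) - Complex.I * c2, ?_⟩
  filter_upwards [h1, h2] with x h3 h4
  have h5 : B x = (1 / 2 : ℂ) • (B x + (B x).conjTranspose) -
      Complex.I • ((Complex.I / 2 : ℂ) • (B x - (B x).conjTranspose)) := by
    rw [smul_smul]
    have : Complex.I * (Complex.I / 2) = -(1 / 2 : ℂ) := by
      rw [← mul_div_assoc, Complex.I_mul_I]; ring
    rw [this]
    module
  rw [h5, h3, h4, smul_smul, sub_smul]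

end Pool.Agent.Helper95.TWM
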